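import Mathlib

set_option autoImplicit false

/-! Commutative permutation groups all of whose nonidentity elements have few fixed points. -/

namespace Pool.Agent.TH446.SICG

open MulAction

/-- Number of orbits on pairs of a commutative group; `R` contains the point stabilisers. -/
theorem pairs_ge {G α : Type*} [Group G] [Finite G] [MulAction G α] [Fintype α] [DecidableEq α]
    [Fintype (Quotient (orbitRel G α))] [DecidableEq (Quotient (orbitRel G α))]
    [Fintype (Quotient (orbitRel G (α × α)))]
    (hc : ∀ a b : G, a * b = b * a) (R : Subgroup G)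
    (hR : ∀ (g : G) (a : α), g • a = a → g ∈ R) :
    Fintype.card α + Nat.card (G ⧸ R) * (Fintype.card (Quotient (orbitRel G α)) *
        Fintype.card (Quotient (orbitRel G α)))
      ≤ Fintype.card (Quotient (orbitRel G (α × α))) +
        Nat.card (G ⧸ R) * Fintype.card (Quotient (orbitRel G α)) := by
  classical
  have : Fintype (G ⧸ R) := Fintype.ofFinite _
  let o : Quotient (orbitRel G α) → α := Quotient.out
  have ho : ∀ q : Quotient (orbitRel G α), (Quotient.mk _ (o q) : Quotient (orbitRel G α)) = q :=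
    fun q => Quotient.out_eq q
  let φ : α ⊕ ({p : Quotient (orbitRel G α) × Quotient (orbitRel G α) //
      p ∈ (Finset.univ : Finset (Quotient (orbitRel G α))).offDiag} × (G ⧸ R)) →
      Quotient (orbitRel G (α × α)) := fun z =>
    match z with
    | Sum.inl a => Quotient.mk _ (o (Quotient.mk _ a), a)
    | Sum.inr p => Quotient.mk _ (o p.1.1.1, (Quotient.out p.2 : G) • o p.1.1.2)
  have hrel : ∀ u v : α × α, (Quotient.mk (orbitRel G (α × α)) u = Quotient.mk _ v) →
      ∃ g : G, g • v.1 = u.1 ∧ g • v.2 = u.2 := by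
    intro u v h
    have h1 : u ∈ orbit G v := Quotient.exact h
    obtain ⟨g, hg⟩ := h1
    exact ⟨g, congrArg Prod.fst hg, congrArg Prod.snd hg⟩
  have hmk : ∀ (a b : α) (g : G), g • a = b → (Quotient.mk (orbitRel G α) a = Quotient.mk _ b) := by
    intro a b g h
    apply Quotient.sound
    exact ⟨g⁻¹, by simp [← h]⟩
  have hsm : ∀ (a : α) (g : G), (Quotient.mk (orbitRel G α) (g • a)) = Quotient.mk _ a :=
    fun a g => (hmk a _ g rfl).symm
  have hφ : Function.Injective φ := by
    intro z w h
    rcases z with a | ⟨p, c⟩ <;> rcases w with b | ⟨r, e⟩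
    · obtain ⟨g, h1, h2⟩ := hrel _ _ h
      simp only at h1 h2
      -- the orbits agree
      have e1 : (Quotient.mk (orbitRel G α) b) = Quotient.mk _ a := hmk _ _ g h2
      rw [e1] at h1
      -- `a` is in the orbit of `o [a]`
      have e2 : (Quotient.mk (orbitRel G α) b) = Quotient.mk _ (o (Quotient.mk _ a)) := by
        rw [ho, e1]
      obtain ⟨k, hk⟩ : b ∈ orbit G (o (Quotient.mk _ a)) := Quotient.exact e2
      simp only at hk
      congr 1
      rw [← h2, ← hk, smul_smul, hc, ← smul_smul, h1]
    · exfalso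
      obtain ⟨g, h1, h2⟩ := hrel _ _ h
      simp only at h1 h2
      have e1 := hmk _ _ g h1
      have e2 := hmk _ _ g h2
      rw [ho, ho] at e1
      rw [hsm, ho] at e2
      exact (Finset.mem_offDiag.1 r.2).2.2 (e1.trans e2.symm)
    · exfalso
      obtain ⟨g, h1, h2⟩ := hrel _ _ h
      simp only at h1 h2
      have e1 := hmk _ _ g h1
      have e2 := hmk _ _ g h2
      rw [ho, ho] at e1
      rw [hsm, ho] at e2
      exact (Finset.mem_offDiag.1 p.2).2.2 (e1.symm.trans e2)
    · obtain ⟨g, h1, h2⟩ := hrel _ _ h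
      simp only at h1 h2
      have e1 := hmk _ _ g h1
      have e2 := hmk _ _ g h2
      rw [ho, ho] at e1
      rw [hsm, hsm, ho, ho] at e2
      have e3 : p = r := Subtype.ext (Prod.ext e1.symm e2.symm)
      subst e3
      have g1 : g ∈ R := hR g _ h1
      have g2 : (Quotient.out c : G)⁻¹ * (g * Quotient.out e) ∈ R := by
        apply hR _ (o p.1.2)
        rw [← smul_smul, ← smul_smul, h2, smul_smul, inv_mul_cancel, one_smul]
      have g3 : (Quotient.out c : G)⁻¹ * Quotient.out e ∈ R := by
        have g4 := mul_mem (inv_mem g1) g2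
        have g5 : g⁻¹ * ((Quotient.out c : G)⁻¹ * (g * Quotient.out e)) =
            (Quotient.out c : G)⁻¹ * Quotient.out e := by
          rw [hc g⁻¹, hc g (Quotient.out e), ← mul_assoc, mul_assoc, mul_inv_cancel, mul_one]
        rwa [g5] at g4
      have g6 : (QuotientGroup.mk (Quotient.out c) : G ⧸ R) = QuotientGroup.mk (Quotient.out e) :=
        QuotientGroup.eq.2 g3
      rw [QuotientGroup.out_eq', QuotientGroup.out_eq'] at g6
      rw [g6]
  have h1 := Fintype.card_le_of_injective φ hφ
  rw [Fintype.card_sum, Fintype.card_prod, Fintype.card_coe, Finset.offDiag_card,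
    Finset.card_univ] at h1
  have h2 := Nat.le_mul_self (Fintype.card (Quotient (orbitRel G α)))
  rw [Nat.card_eq_fintype_card]
  rw [Nat.sub_mul] at h1
  have h3 := Nat.mul_le_mul_right (Fintype.card (G ⧸ R)) h2
  rw [mul_comm (Fintype.card (G ⧸ R)), mul_comm (Fintype.card (G ⧸ R))]
  omega

/-- Fixed points and orbits: the two counting identities. -/
theorem burnside2 {G α : Type*} [Group G] [MulAction G α] [Fintype G] [Fintype α]
    [DecidableEq α] [Fintype (Quotient (orbitRel G α))]
    [Fintype (Quotient (orbitRel G (α × α)))] :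
    (∑ g : G, (Finset.univ.filter fun i : α => g • i = i).card =
      Fintype.card (Quotient (orbitRel G α)) * Fintype.card G) ∧
    (∑ g : G, (Finset.univ.filter fun i : α => g • i = i).card ^ 2 =
      Fintype.card (Quotient (orbitRel G (α × α))) * Fintype.card G) := by
  classical
  have h1 := sum_card_fixedBy_eq_card_orbits_mul_card_group G α
  have h2 := sum_card_fixedBy_eq_card_orbits_mul_card_group G (α × α)
  constructor
  · rw [← h1]
    refine Finset.sum_congr rfl fun g _ => ?_
    rw [Fintype.card_subtype]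
    rfl
  · rw [← h2]
    refine Finset.sum_congr rfl fun g _ => ?_
    rw [Fintype.card_subtype, sq, ← Finset.card_product]
    congr 1
    ext ⟨i, j⟩
    simp only [Finset.mem_product, Finset.mem_filter, Finset.mem_univ, true_and, mem_fixedBy,
      Prod.smul_mk, Prod.mk.injEq]

/-- The basic inequality for the order of a commutative permutation group. -/
theorem comm_order {G α : Type*} [Group G] [MulAction G α] [Fintype G] [Fintype α]
    [DecidableEq α] [Fintype (Quotient (orbitRel G α))]
    (hc : ∀ a b : G, a * b = b * a) (R : Subgroup G)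
    (hR : ∀ (g : G) (a : α), g • a = a → g ∈ R) (F : ℝ)
    (hfix : ∀ g : G, g ≠ 1 → ((Finset.univ.filter fun i : α => g • i = i).card : ℝ) ≤ F)
    (q t : ℝ) (hq : q = Nat.card (G ⧸ R))
    (ht : t = Fintype.card (Quotient (orbitRel G α))) :
    (Fintype.card G : ℝ) * (Fintype.card α + q * t ^ 2 - q * t - F * t) ≤
      Fintype.card α * (Fintype.card α - F) := by
  classical
  obtain ⟨h1, h2⟩ := burnside2 (G := G) (α := α)
  have h3 := pairs_ge (G := G) (α := α) hc R hR
  set n : ℝ := (Fintype.card G : ℝ) with hn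
  set N : ℝ := (Fintype.card α : ℝ) with hN
  set r : ℝ := (Fintype.card (Quotient (orbitRel G (α × α))) : ℝ) with hr
  have h1' : ∑ g : G, ((Finset.univ.filter fun i : α => g • i = i).card : ℝ) = t * n := by
    rw [ht, hn]; exact_mod_cast h1
  have h2' : ∑ g : G, ((Finset.univ.filter fun i : α => g • i = i).card : ℝ) ^ 2 = r * n := by
    rw [hr, hn]; exact_mod_cast h2
  have h3' : N + q * (t * t) ≤ r + q * t := by
    rw [hN, hr, ht, hq]; exact_mod_cast h3
  have hone : ((Finset.univ.filter fun i : α => (1 : G) • i = i).card : ℝ) = N := by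
    simp [hN]
  have h4 : ∑ g : G, ((Finset.univ.filter fun i : α => g • i = i).card : ℝ) ^ 2
      ≤ N ^ 2 + F * (t * n - N) := by
    rw [← h1', ← Finset.add_sum_erase _ _ (Finset.mem_univ (1 : G)),
      ← Finset.add_sum_erase Finset.univ
        (fun g : G => ((Finset.univ.filter fun i : α => g • i = i).card : ℝ))
        (Finset.mem_univ (1 : G)), hone, add_sub_cancel_left, Finset.mul_sum]
    refine add_le_add_right (Finset.sum_le_sum fun g hg => ?_) _
    have h5 := hfix g (Finset.ne_of_mem_erase hg)
    rw [sq]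
    exact mul_le_mul_of_nonneg_right h5 (by positivity)
  rw [h2'] at h4
  have hn0 : 0 ≤ n := by rw [hn]; positivity
  have h5 : (N + q * t ^ 2 - q * t) * n ≤ r * n :=
    mul_le_mul_of_nonneg_right (by nlinarith) hn0
  nlinarith

/-- elementary estimate -/
theorem num_est (d s q t : ℝ) (hs : s ^ 2 = d + 1) (hs0 : 0 ≤ s) (hd : d - 3 ≥ 2 * s)
    (hq : 1 ≤ q) (ht : 1 ≤ t) (hqt : d ^ 2 ≤ q * t ^ 2) :
    d ^ 2 - 3 * d - 2 * s * d ≤ d ^ 2 + q * t ^ 2 - q * t - (1 + s) ^ 2 * t := by
  set F := (1 + s) ^ 2 with hF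
  have hF1 : F = d + 2 + 2 * s := by rw [hF]; nlinarith
  have hd3 : 3 ≤ d := by linarith
  set w := Real.sqrt q with hw
  have hw2 : w ^ 2 = q := Real.sq_sqrt (by linarith)
  have hw1 : 1 ≤ w := Real.one_le_sqrt.2 hq
  set u := w * t with hu
  have ht0 : 0 ≤ t := by linarith
  have hu0 : 0 ≤ u := by rw [hu]; positivity
  have h1 : d ^ 2 ≤ u ^ 2 := by rw [hu, mul_pow, hw2]; exact hqt
  have hud : d ≤ u := by
    by_contra hcon
    push Not at hcon
    nlinarith
  have e1 : q * t ^ 2 = u ^ 2 := by rw [hu, mul_pow, hw2]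
  have e2 : q * t = w * u := by rw [hu, ← hw2]; ring
  rw [e1, e2]
  rcases le_or_gt w F with hwF | hwF
  · have h2 : 0 ≤ (w - 1) * (F - w) := mul_nonneg (by linarith) (by linarith)
    have h3 : 0 ≤ (w - 1) * (F - w) * t := mul_nonneg h2 ht0
    have h4 : w * u + F * t ≤ (1 + F) * u := by
      have : (w - 1) * (F - w) * t = (1 + F) * (w * t) - w * (w * t) - F * t := by ring
      rw [this, ← hu] at h3
      linarith
    have h5 : 0 ≤ (u - d) * (u + d - 1 - F) := mul_nonneg (by linarith) (by linarith)
    nlinarith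
  · have hF1' : 1 ≤ F := by rw [hF1]; linarith
    have h2 : F ≤ w ^ 2 * t := by
      have : w ≤ w ^ 2 := by nlinarith
      nlinarith
    have h3 : 0 ≤ (t - 1) * (w ^ 2 * t - F) := mul_nonneg (by linarith) (by linarith)
    have h4 : w * u + F * t ≤ u ^ 2 + F := by
      have : (t - 1) * (w ^ 2 * t - F) = (w * t) ^ 2 - w * (w * t) - F * t + F := by ring
      rw [this, ← hu] at h3
      linarith
    have h5 : 0 ≤ s * d := mul_nonneg hs0 (by linarith)
    have h6 : s ≤ s * d := by nlinarith
    rw [hF1] at h4 ⊢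
    nlinarith

end Pool.Agent.TH446.SICG
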