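import Mathlib
import Pool.Agent.W864.SymPrimes
import Pool.Agent.H103R3.Welch
import Pool.Agent.TH446.SIC.Ab

set_option autoImplicit false

/-! Commutative groups of symmetries of a maximal equiangular tight frame. -/

namespace Pool.Agent.TH446.SICG

open Matrix Pool.Agent.H109R2.SIC Pool.Agent.H109R2.SymGroup Pool.Agent.W864.Sym
open scoped ComplexOrder InnerProductSpace

/-- frame potential in a subspace -/
theorem frame {S E : Type*} [Fintype S] [Nonempty S] [NormedAddCommGroup E]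
    [InnerProductSpace ℂ E] [FiniteDimensional ℂ E] (v : S → E) (hv : ∀ a, ‖v a‖ = 1)
    (W : Submodule ℂ E) (hW : ∀ a, v a ∈ W) :
    (Fintype.card S : ℝ) ^ 2 ≤ Module.finrank ℂ W * ∑ a, ∑ b, ‖⟪v a, v b⟫_ℂ‖ ^ 2 := by
  classical
  let e := Fintype.equivFin S
  let B := stdOrthonormalBasis ℂ W
  let y : Fin (Fintype.card S) → EuclideanSpace ℂ (Fin (Module.finrank ℂ W)) := fun j =>
    B.repr ⟨v (e.symm j), hW _⟩
  have hy : ∀ j, ‖y j‖ = 1 := by
    intro j
    rw [LinearIsometryEquiv.norm_map]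
    exact hv _
  have hl : 0 < Module.finrank ℂ W := by
    rw [Module.finrank_pos_iff]
    obtain ⟨a⟩ := (inferInstance : Nonempty S)
    refine ⟨⟨v a, hW a⟩, 0, ?_⟩
    intro h
    have h1 : v a = 0 := congrArg Subtype.val h
    have h2 := hv a
    rw [h1, norm_zero] at h2
    exact zero_ne_one h2
  have h1 := (Pool.Agent.H103R3.frame_potential hl y hy).1
  have hl' : (0 : ℝ) < Module.finrank ℂ W := by exact_mod_cast hl
  rw [div_le_iff₀ hl', mul_comm] at h1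
  refine h1.trans (le_of_eq ?_)
  congr 1
  have h2 : ∀ i j, ⟪y i, y j⟫_ℂ = ⟪v (e.symm i), v (e.symm j)⟫_ℂ := by
    intro i j
    rw [LinearIsometryEquiv.inner_map_map]
    rfl
  simp only [h2]
  rw [Equiv.sum_comp e.symm (fun a => ∑ j, ‖⟪v a, v (e.symm j)⟫_ℂ‖ ^ 2)]
  refine Finset.sum_congr rfl fun a _ => ?_
  exact Equiv.sum_comp e.symm (fun b => ‖⟪v a, v b⟫_ℂ‖ ^ 2)

variable {d : ℕ} {x : Fin (d ^ 2) → EuclideanSpace ℂ (Fin d)}

/-- matrices as vectors -/
noncomputable def vec (d : ℕ) : Matrix (Fin d) (Fin d) ℂ →ₗ[ℂ] EuclideanSpace ℂ (Fin d × Fin d) where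
  toFun M := WithLp.toLp 2 fun p => M p.1 p.2
  map_add' _ _ := rfl
  map_smul' _ _ := rfl

theorem inner_vec (M N : Matrix (Fin d) (Fin d) ℂ) : ⟪vec d M, vec d N⟫_ℂ = trace (Mᴴ * N) := by
  rw [EuclideanSpace.inner_eq_star_dotProduct]
  simp only [dotProduct, Fintype.sum_prod_type, trace, diag_apply, mul_apply,
    conjTranspose_apply, Pi.star_apply]
  rw [Finset.sum_comm]
  refine Finset.sum_congr rfl fun a _ => Finset.sum_congr rfl fun b _ => ?_
  change N b a * star (M b a) = star (M b a) * N b a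
  ring

theorem Ind_adj (hx : IsMaxETF d x) {M : Matrix (Fin d) (Fin d) ℂ}
    {π : Equiv.Perm (Fin (d ^ 2))} (h : Ind x M π) : Ind x Mᴴ π⁻¹ := by
  refine ⟨?_, fun j => ?_⟩
  · rw [conjTranspose_conjTranspose]; exact mul_eq_one_comm.mp h.1
  · obtain ⟨c, hc⟩ := h.2 (π⁻¹ j)
    have hpj : π (π⁻¹ j) = j := π.apply_symm_apply j
    rw [hpj] at hc
    have e1 := coef hx h.1 hc
    refine ⟨star c, ?_⟩
    have e2 : Mᴴ *ᵥ (M *ᵥ (x (π⁻¹ j)).ofLp) = (x (π⁻¹ j)).ofLp := by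
      rw [mulVec_mulVec, h.1, one_mulVec]
    rw [hc, mulVec_smul] at e2
    rw [← e2, smul_smul, e1, one_smul]

theorem Ind_prop (hd : 1 ≤ d) (hx : IsMaxETF d x) {M N : Matrix (Fin d) (Fin d) ℂ}
    {π : Equiv.Perm (Fin (d ^ 2))} (h : Ind x M π) (h' : Ind x N π) :
    ∃ c : ℂ, star c * c = 1 ∧ M = c • N := by
  have h1 : Ind x (Nᴴ * M) 1 := by
    have := (Ind_adj hx h').mul h
    rwa [inv_mul_cancel] at this
  obtain ⟨c, hc⟩ := h1.scalar hx
  have hNN : N * Nᴴ = 1 := mul_eq_one_comm.mp h'.1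
  refine ⟨c, ?_, ?_⟩
  · have h2 := h1.1
    rw [hc, conjTranspose_smul, conjTranspose_one, smul_mul_smul_comm, Matrix.one_mul] at h2
    have h3 := congrFun (congrFun h2 ⟨0, hd⟩) ⟨0, hd⟩
    simpa using h3
  · calc M = (N * Nᴴ) * M := by rw [hNN, Matrix.one_mul]
      _ = N * (Nᴴ * M) := by rw [Matrix.mul_assoc]
      _ = c • N := by rw [hc, Matrix.mul_smul, Matrix.mul_one]

/-- a symmetry which fixes a line commutes with the other ones -/
theorem stab_comm (hd : 1 ≤ d) (hx : IsMaxETF d x) {M N : Matrix (Fin d) (Fin d) ℂ}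
    {π σ : Equiv.Perm (Fin (d ^ 2))} (h : Ind x M π) (h' : Ind x N σ) (hc : π * σ = σ * π)
    {i : Fin (d ^ 2)} (hi : π i = i) : N * M = M * N := by
  have h1 : Ind x (N * M * Nᴴ) π := by
    have := (h'.mul h).mul (Ind_adj hx h')
    rwa [← hc, mul_inv_cancel_right] at this
  obtain ⟨c, -, hc2⟩ := Ind_prop hd hx h1 h
  obtain ⟨l, hl⟩ := h.2 i
  rw [hi] at hl
  have hk : π (σ i) = σ i := by
    have := congrArg (fun τ : Equiv.Perm (Fin (d ^ 2)) => τ i) hc
    simp only [Equiv.Perm.mul_apply] at this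
    rw [this, hi]
  obtain ⟨l', hl'⟩ := h.2 (σ i)
  rw [hk] at hl'
  have e1 : l' = l := same_eigen hx h.1 hl hl'
  obtain ⟨μ, hμ⟩ := (Ind_adj hx h').2 (σ i)
  have hsi : σ⁻¹ (σ i) = i := σ.symm_apply_apply i
  rw [hsi] at hμ
  have hNN : N * Nᴴ = 1 := mul_eq_one_comm.mp h'.1
  have e2 : (N * M * Nᴴ) *ᵥ (x (σ i)).ofLp = l • (x (σ i)).ofLp := by
    calc (N * M * Nᴴ) *ᵥ (x (σ i)).ofLp = N *ᵥ (M *ᵥ (Nᴴ *ᵥ (x (σ i)).ofLp)) := by
          rw [mulVec_mulVec, mulVec_mulVec, Matrix.mul_assoc]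
      _ = l • N *ᵥ (Nᴴ *ᵥ (x (σ i)).ofLp) := by
          rw [hμ, mulVec_smul, hl, mulVec_smul, mulVec_smul, mulVec_smul, smul_comm]
      _ = l • (x (σ i)).ofLp := by rw [mulVec_mulVec, hNN, one_mulVec]
  rw [hc2, smul_mulVec, hl', e1, smul_smul] at e2
  have e3 : (c * l - l) • (x (σ i)).ofLp = 0 := by rw [sub_smul, e2, sub_self]
  have e4 : c * l - l = 0 := by
    rcases smul_eq_zero.mp e3 with h2 | h2
    · exact h2
    · exact absurd h2 (vec_ne hx _)
  have e5 := coef hx h.1 hl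
  have hl0 : l ≠ 0 := by
    rintro rfl
    rw [mul_zero] at e5
    exact zero_ne_one e5
  have e6 : c = 1 := by
    have : (c - 1) * l = 0 := by rw [sub_mul, one_mul]; exact e4
    rcases mul_eq_zero.mp this with h2 | h2
    · exact sub_eq_zero.mp h2
    · exact absurd h2 hl0
  rw [e6, one_smul] at hc2
  calc N * M = N * M * (Nᴴ * N) := by rw [h'.1, Matrix.mul_one]
    _ = (N * M * Nᴴ) * N := by simp only [Matrix.mul_assoc]
    _ = M * N := by rw [hc2]

/-- expansion of a matrix in the projections -/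
theorem expand (hd : 1 ≤ d) (hx : IsMaxETF d x) (B : Matrix (Fin d) (Fin d) ℂ) :
    ∑ i, ((((d : ℂ) + 1) / d) * trace (P x i * B) - trace B / d) • P x i = B := by
  have hd1 := d1_ne (d := d)
  have hd0 : (d : ℂ) ≠ 0 := by exact_mod_cast (by omega : d ≠ 0)
  have h1 := design hx B
  have h2 := sum_P hx
  simp only [sub_smul, Finset.sum_sub_distrib, ← Finset.smul_sum, mul_smul]
  rw [h1, h2, smul_smul, smul_smul]
  have e1 : ((d : ℂ) + 1) / d * ((d : ℂ) / ((d : ℂ) + 1)) = 1 := by field_simp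
  have e2 : trace B / d * (d : ℂ) = trace B := by field_simp
  rw [e1, e2, one_smul, add_sub_cancel_right]

/-- matrices commuting with the symmetries -/
theorem trace_orbit (hx : IsMaxETF d x) {M B : Matrix (Fin d) (Fin d) ℂ}
    {π : Equiv.Perm (Fin (d ^ 2))} (h : Ind x M π) (hB : M * B = B * M) (i : Fin (d ^ 2)) :
    trace (P x (π i) * B) = trace (P x i * B) := by
  obtain ⟨c, hc⟩ := h.2 i
  have e1 := coef hx h.1 hc
  have e2 : star (M *ᵥ (x i).ofLp) ⬝ᵥ (B *ᵥ (M *ᵥ (x i).ofLp)) =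
      star (x i).ofLp ⬝ᵥ (B *ᵥ (x i).ofLp) := by
    rw [star_mulVec, ← Matrix.dotProduct_mulVec, mulVec_mulVec, mulVec_mulVec, Matrix.mul_assoc,
      ← hB, ← Matrix.mul_assoc, h.1, Matrix.one_mul]
  rw [trace_P_mul_mulVec, trace_P_mul_mulVec, ← e2, hc, mulVec_smul, star_smul, smul_dotProduct,
    dotProduct_smul, smul_smul, e1, one_smul]

end Pool.Agent.TH446.SICG
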