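import Mathlib
import Pool.Agent.TH446.SIC.Comm

set_option autoImplicit false

/-! The order of a commutative group of symmetries of a maximal equiangular tight frame. -/

namespace Pool.Agent.TH446.SICG

open Matrix Pool.Agent.H109R2.SIC Pool.Agent.H109R2.SymGroup Pool.Agent.W864.Sym
open scoped ComplexOrder InnerProductSpace

variable {d : ℕ} {x : Fin (d ^ 2) → EuclideanSpace ℂ (Fin d)}

/-- the symmetries whose unitary matrices commute with all the matrices `U a` -/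
def rad (hd : 1 ≤ d) (hx : IsMaxETF d x) (G : Subgroup (Equiv.Perm (Fin (d ^ 2))))
    (U : G → Matrix (Fin d) (Fin d) ℂ) (hU : ∀ g : G, Ind x (U g) g) : Subgroup G where
  carrier := {g | ∀ a : G, U a * U g = U g * U a}
  one_mem' := by
    intro a
    obtain ⟨c, -, hc⟩ := Ind_prop hd hx (hU 1) Ind.one
    rw [hc]; simp
  mul_mem' := by
    intro g h hg hh a
    obtain ⟨c, -, hc⟩ := Ind_prop hd hx (hU (g * h)) ((hU g).mul (hU h))
    rw [hc, mul_smul_comm, smul_mul_assoc, ← Matrix.mul_assoc, hg a, Matrix.mul_assoc, hh a,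
      ← Matrix.mul_assoc]
  inv_mem' := by
    intro g hg a
    have h1 : Ind x (U g⁻¹) (g : Equiv.Perm (Fin (d ^ 2)))⁻¹ := hU g⁻¹
    obtain ⟨c, -, hc⟩ := Ind_prop hd hx h1 (Ind_adj hx (hU g))
    have h2 := (hU g).1
    have h3 : U g * (U g)ᴴ = 1 := mul_eq_one_comm.mp h2
    rw [hc, mul_smul_comm, smul_mul_assoc]
    congr 1
    calc U a * (U g)ᴴ = (U g)ᴴ * U g * (U a * (U g)ᴴ) := by rw [h2, Matrix.one_mul]
      _ = (U g)ᴴ * (U a * U g) * (U g)ᴴ := by rw [hg a]; simp only [Matrix.mul_assoc]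
      _ = (U g)ᴴ * U a := by
        rw [Matrix.mul_assoc, Matrix.mul_assoc (U a), h3, Matrix.mul_one]

theorem vec_norm {M : Matrix (Fin d) (Fin d) ℂ} (hM : Mᴴ * M = 1) : ‖vec d M‖ ^ 2 = d := by
  have h1 : ⟪vec d M, vec d M⟫_ℂ = (d : ℂ) := by
    rw [inner_vec, hM, trace_one, Fintype.card_fin]
  rw [inner_self_eq_norm_sq_to_K] at h1
  have h2 : (((‖vec d M‖ ^ 2 : ℝ)) : ℂ) = ((d : ℝ) : ℂ) := by
    push_cast
    exact h1
  exact Complex.ofReal_injective h2

/-- `d ^ 2 ≤ q t ^ 2` -/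
theorem rank_ineq (hd : 1 ≤ d) (hx : IsMaxETF d x) (G : Subgroup (Equiv.Perm (Fin (d ^ 2))))
    [Fintype G] [Fintype (Quotient (MulAction.orbitRel G (Fin (d ^ 2))))]
    (U : G → Matrix (Fin d) (Fin d) ℂ) (hU : ∀ g : G, Ind x (U g) g) (q t : ℝ)
    (hq : q = Nat.card (G ⧸ rad hd hx G U hU))
    (ht : t = Fintype.card (Quotient (MulAction.orbitRel G (Fin (d ^ 2))))) :
    (d : ℝ) ^ 2 ≤ q * t ^ 2 := by
  classical
  set R := rad hd hx G U hU with hR
  have : Fintype R := Fintype.ofFinite R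
  have hdr : (0 : ℝ) < d := by exact_mod_cast hd
  let r : ℂ := ((1 / Real.sqrt d : ℝ) : ℂ)
  have hr2 : ‖r‖ ^ 2 = 1 / d := by
    rw [Complex.norm_real, Real.norm_eq_abs, sq_abs, div_pow, Real.sq_sqrt hdr.le, one_pow]
  let v : R → EuclideanSpace ℂ (Fin d × Fin d) := fun g => r • vec d (U g)
  have hv : ∀ g, ‖v g‖ = 1 := by
    intro g
    have h1 : ‖v g‖ ^ 2 = 1 := by
      rw [norm_smul, mul_pow, hr2, vec_norm (hU g).1]
      field_simp
    have h2 := norm_nonneg (v g)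
    nlinarith
  let Q := Quotient (MulAction.orbitRel G (Fin (d ^ 2)))
  let Ψ : (Q → ℂ) →ₗ[ℂ] EuclideanSpace ℂ (Fin d × Fin d) :=
    ∑ i : Fin (d ^ 2), (LinearMap.proj (Quotient.mk _ i : Q)).smulRight (vec d (P x i))
  have hW : ∀ g, v g ∈ LinearMap.range Ψ := by
    intro g
    have hg : ∀ a : G, U a * U g = U g * U a := g.2
    let κ : Fin (d ^ 2) → ℂ := fun i =>
      ((((d : ℂ) + 1) / d) * trace (P x i * U g) - trace (U g) / d)
    have hκ : ∀ i j : Fin (d ^ 2), (MulAction.orbitRel G (Fin (d ^ 2))) i j → κ i = κ j := by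
      intro i j hij
      obtain ⟨a, ha⟩ := hij
      have h1 := trace_orbit hx (hU a) (hg a) j
      have h2 : (a : Equiv.Perm (Fin (d ^ 2))) j = i := ha
      rw [h2] at h1
      simp only [κ, h1]
    let κ' : Q → ℂ := Quotient.lift κ hκ
    have h1 : Ψ κ' = vec d (U g) := by
      have h2 := congrArg (vec d) (expand hd hx (U g))
      rw [map_sum] at h2
      rw [← h2, LinearMap.sum_apply]
      refine Finset.sum_congr rfl fun i _ => ?_
      rw [LinearMap.smulRight_apply, map_smul]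
      rfl
    refine ⟨r • κ', ?_⟩
    rw [map_smul, h1]
  have h1 := frame v hv (LinearMap.range Ψ) hW
  have h2 : (Module.finrank ℂ (LinearMap.range Ψ) : ℝ) ≤ t := by
    have h3 := LinearMap.finrank_range_le Ψ
    rw [Module.finrank_fintype_fun_eq_card] at h3
    rw [ht]
    exact_mod_cast h3
  set n : ℝ := (Fintype.card G : ℝ) with hn
  set m : ℝ := (Fintype.card R : ℝ) with hm
  -- the Gram sum
  have h4 : ∑ a : R, ∑ b : R, ‖⟪v a, v b⟫_ℂ‖ ^ 2 ≤ m * (t * n) / (d : ℝ) ^ 2 := by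
    have h5 : ∀ a b : R, ‖⟪v a, v b⟫_ℂ‖ ^ 2 =
        (fix (((a⁻¹ * b : R) : G) : Equiv.Perm (Fin (d ^ 2))) : ℝ) / (d : ℝ) ^ 2 := by
      intro a b
      rw [inner_smul_left, inner_smul_right, inner_vec, norm_mul, norm_mul, mul_pow, mul_pow,
        hr2, RCLike.norm_conj, hr2]
      have h6 : Ind x ((U a)ᴴ * U b) (((a⁻¹ * b : R) : G) : Equiv.Perm (Fin (d ^ 2))) :=
        (Ind_adj hx (hU a)).mul (hU b)
      rw [norm_trace_sq hd hx h6]
      ring
    have h6 : ∀ a : R, ∑ b : R, ‖⟪v a, v b⟫_ℂ‖ ^ 2 ≤ (t * n) / (d : ℝ) ^ 2 := by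
      intro a
      simp only [h5]
      rw [← Finset.sum_div]
      refine div_le_div_of_nonneg_right ?_ (by positivity)
      have h7 : ∑ b : R, (fix (((a⁻¹ * b : R) : G) : Equiv.Perm (Fin (d ^ 2))) : ℝ) =
          ∑ b : R, (fix (((b : R) : G) : Equiv.Perm (Fin (d ^ 2))) : ℝ) :=
        Equiv.sum_comp (Equiv.mulLeft a⁻¹)
          (fun b : R => (fix (((b : R) : G) : Equiv.Perm (Fin (d ^ 2))) : ℝ))
      rw [h7]
      have h8 : ∑ b : R, (fix (((b : R) : G) : Equiv.Perm (Fin (d ^ 2))) : ℝ) ≤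
          ∑ b : G, (fix ((b : G) : Equiv.Perm (Fin (d ^ 2))) : ℝ) := by
        have h9 := Finset.sum_map (Finset.univ : Finset R) (Function.Embedding.subtype _)
          (fun b : G => (fix ((b : G) : Equiv.Perm (Fin (d ^ 2))) : ℝ))
        have h10 : ∑ b : R, (fix (((b : R) : G) : Equiv.Perm (Fin (d ^ 2))) : ℝ) =
          ∑ b ∈ (Finset.univ : Finset R).map (Function.Embedding.subtype _),
            (fix ((b : G) : Equiv.Perm (Fin (d ^ 2))) : ℝ) := h9.symm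
        rw [h10]
        exact Finset.sum_le_univ_sum_of_nonneg fun _ => by positivity
      refine h8.trans (le_of_eq ?_)
      have h9 := (burnside2 (G := G) (α := Fin (d ^ 2))).1
      rw [ht, hn]
      exact_mod_cast h9
    calc ∑ a : R, ∑ b : R, ‖⟪v a, v b⟫_ℂ‖ ^ 2 ≤ ∑ a : R, (t * n) / (d : ℝ) ^ 2 :=
          Finset.sum_le_sum fun a _ => h6 a
      _ = m * (t * n) / (d : ℝ) ^ 2 := by
          rw [Finset.sum_const, Finset.card_univ, nsmul_eq_mul, hm]; ring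
  have ht0 : 0 ≤ t := by rw [ht]; positivity
  have hn0 : 0 ≤ n := by rw [hn]; positivity
  have hm0 : 0 < m := by rw [hm]; exact_mod_cast Fintype.card_pos
  have h5 : m ^ 2 ≤ t * (m * (t * n) / (d : ℝ) ^ 2) := by
    refine h1.trans ?_
    have h6 : (0 : ℝ) ≤ ∑ a : R, ∑ b : R, ‖⟪v a, v b⟫_ℂ‖ ^ 2 := by positivity
    exact mul_le_mul h2 h4 h6 ht0
  have h6 : n = q * m := by
    have h7 := Subgroup.card_eq_card_quotient_mul_card_subgroup R
    rw [Nat.card_eq_fintype_card, Nat.card_eq_fintype_card (α := R)] at h7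
    rw [hn, hq, hm]
    exact_mod_cast h7
  have h7 : m ^ 2 * (d : ℝ) ^ 2 ≤ m ^ 2 * (q * t ^ 2) := by
    have h8 : m ^ 2 * (d : ℝ) ^ 2 ≤ t * (m * (t * n) / (d : ℝ) ^ 2) * (d : ℝ) ^ 2 :=
      mul_le_mul_of_nonneg_right h5 (by positivity)
    refine h8.trans (le_of_eq ?_)
    rw [h6]
    field_simp
  exact le_of_mul_le_mul_left h7 (by positivity)

/-- The order of a commutative group of symmetries. -/
theorem abel (hd : 1 ≤ d) (hx : IsMaxETF d x) (hd2 : (d : ℝ) - 3 ≥ 2 * Real.sqrt ((d : ℝ) + 1))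
    (G : Subgroup (Equiv.Perm (Fin (d ^ 2))))
    (hG : ∀ π ∈ G, ∃ M, Ind x M π) (hc : ∀ a ∈ G, ∀ b ∈ G, a * b = b * a) :
    (Nat.card G : ℝ) * ((d : ℝ) ^ 2 - 3 * d - 2 * d * Real.sqrt ((d : ℝ) + 1)) ≤
      (d : ℝ) ^ 2 * ((d : ℝ) ^ 2 - (1 + Real.sqrt ((d : ℝ) + 1)) ^ 2) := by
  classical
  have : Fintype G := Fintype.ofFinite G
  have hc' : ∀ a b : G, a * b = b * a := fun a b => Subtype.ext (hc a a.2 b b.2)
  choose U hU using fun g : G => hG g g.2
  set R := rad hd hx G U hU with hR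
  have hRs : ∀ (g : G) (i : Fin (d ^ 2)), g • i = i → g ∈ R := by
    intro g i hi a
    exact stab_comm hd hx (hU g) (hU a) (hc g g.2 a a.2) hi
  set F : ℝ := (1 + Real.sqrt ((d : ℝ) + 1)) ^ 2 with hF
  have hfix : ∀ g : G, g ≠ 1 →
      ((Finset.univ.filter fun i : Fin (d ^ 2) => g • i = i).card : ℝ) ≤ F := by
    intro g hg
    have hg' : (g : Equiv.Perm (Fin (d ^ 2))) ≠ 1 := fun h => hg (Subtype.ext h)
    have h1 := trace_bound hd hx hg' (hU g)
    have h2 : (fix (g : Equiv.Perm (Fin (d ^ 2))) : ℝ) ≤ F := by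
      have h3 : Real.sqrt (fix (g : Equiv.Perm (Fin (d ^ 2))) : ℝ) ^ 2 ≤ F :=
        pow_le_pow_left₀ (Real.sqrt_nonneg _) h1 2
      rwa [Real.sq_sqrt (by positivity)] at h3
    exact h2
  set q : ℝ := (Nat.card (G ⧸ R) : ℝ) with hq
  set t : ℝ := (Fintype.card (Quotient (MulAction.orbitRel G (Fin (d ^ 2)))) : ℝ) with ht
  have h1 := comm_order (G := G) (α := Fin (d ^ 2)) hc' R hRs F hfix q t hq ht
  have h2 := rank_ineq hd hx G U hU q t hq ht
  have hq1 : 1 ≤ q := by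
    rw [hq]
    exact_mod_cast Nat.card_pos
  have ht1 : 1 ≤ t := by
    have h3 : Nonempty (Quotient (MulAction.orbitRel G (Fin (d ^ 2)))) :=
      ⟨Quotient.mk _ ⟨0, by positivity⟩⟩
    rw [ht]
    exact_mod_cast Fintype.card_pos
  have h3 := num_est (d : ℝ) (Real.sqrt ((d : ℝ) + 1)) q t (Real.sq_sqrt (by positivity))
    (Real.sqrt_nonneg _) hd2 hq1 ht1 h2
  have h4 : (Fintype.card (Fin (d ^ 2)) : ℝ) = (d : ℝ) ^ 2 := by
    rw [Fintype.card_fin]; push_cast; ring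
  rw [h4] at h1
  rw [Nat.card_eq_fintype_card]
  refine le_trans (mul_le_mul_of_nonneg_left ?_ (by positivity)) h1
  linarith

end Pool.Agent.TH446.SICG
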