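import Mathlib
import Pool.Agent.TH446.SIC.Comm

set_option autoImplicit false

/-! The order of an arbitrary group of symmetries of a maximal equiangular tight frame. -/

namespace Pool.Agent.TH446.SICG

open Matrix Pool.Agent.H109R2.SIC Pool.Agent.H109R2.SymGroup Pool.Agent.W864.Sym
open scoped ComplexOrder InnerProductSpace

variable {d : ℕ} {x : Fin (d ^ 2) → EuclideanSpace ℂ (Fin d)}

/-- groups fixing `k` independent lines -/
theorem ptwise (hd : 1 ≤ d) (hx : IsMaxETF d x) (H : Subgroup (Equiv.Perm (Fin (d ^ 2))))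
    (hH : ∀ π ∈ H, ∃ M, Ind x M π) (k : ℕ) (hk : 1 ≤ k) (idx : Fin k → Fin (d ^ 2))
    (hli : LinearIndependent ℂ (fun j => (x (idx j)).ofLp))
    (hfix : ∀ π ∈ H, ∀ j, π (idx j) = idx j) :
    (Nat.card H : ℝ) * (k - (1 + Real.sqrt ((d : ℝ) + 1))) ≤
      d - (1 + Real.sqrt ((d : ℝ) + 1)) := by
  classical
  have : Fintype H := Fintype.ofFinite H
  set κ : ℝ := 1 + Real.sqrt ((d : ℝ) + 1) with hκ
  let i0 : Fin (d ^ 2) := idx ⟨0, hk⟩
  have hchoose : ∀ h : H, ∃ N : Matrix (Fin d) (Fin d) ℂ, Ind x N h ∧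
      ∀ j, N *ᵥ (x (idx j)).ofLp = (x (idx j)).ofLp := by
    intro h
    obtain ⟨M, hM⟩ := hH h h.2
    obtain ⟨N, hN, -, h1⟩ := hM.normalise hx (hfix h h.2 ⟨0, hk⟩)
    exact ⟨N, hN, fun j => h1 _ (hfix h h.2 j)⟩
  choose U hU hUx using hchoose
  have hmul : ∀ g h : H, U g * U h = U (g * h) := by
    intro g h
    refine ((hU g).mul (hU h)).unique hx (hU (g * h)) (i := i0) ?_ (hUx _ _)
    rw [← Matrix.mulVec_mulVec, hUx h, hUx g]
  have hone : U 1 = 1 := by
    refine (hU 1).unique hx Ind.one (i := i0) (hUx _ _) ?_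
    rw [Matrix.one_mulVec]
  set n : ℝ := (Fintype.card H : ℝ) with hn
  have hn0 : 0 < n := by rw [hn]; exact_mod_cast Fintype.card_pos
  have hnc : ((n : ℝ) : ℂ) ≠ 0 := by exact_mod_cast hn0.ne'
  let Q : Matrix (Fin d) (Fin d) ℂ := ((n : ℝ) : ℂ)⁻¹ • ∑ h : H, U h
  have hUQ : ∀ g : H, U g * ∑ h : H, U h = ∑ h : H, U h := by
    intro g
    rw [Finset.mul_sum]
    simp only [hmul]
    exact Equiv.sum_comp (Equiv.mulLeft g) U
  have hQQ : Q * Q = Q := by
    change (((n : ℝ) : ℂ)⁻¹ • ∑ h : H, U h) * (((n : ℝ) : ℂ)⁻¹ • ∑ h : H, U h) =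
      ((n : ℝ) : ℂ)⁻¹ • ∑ h : H, U h
    rw [smul_mul_smul_comm, Finset.sum_mul]
    simp only [hUQ]
    rw [Finset.sum_const, Finset.card_univ, ← Nat.cast_smul_eq_nsmul ℂ, smul_smul]
    congr 1
    have : ((Fintype.card H : ℕ) : ℂ) = ((n : ℝ) : ℂ) := by rw [hn]; push_cast; rfl
    rw [this]
    field_simp
  have hQx : ∀ j, Q *ᵥ (x (idx j)).ofLp = (x (idx j)).ofLp := by
    intro j
    change (((n : ℝ) : ℂ)⁻¹ • ∑ h : H, U h) *ᵥ (x (idx j)).ofLp = _
    rw [smul_mulVec, Matrix.sum_mulVec]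
    simp only [hUx]
    rw [Finset.sum_const, Finset.card_univ, ← Nat.cast_smul_eq_nsmul ℂ, smul_smul]
    have : ((Fintype.card H : ℕ) : ℂ) = ((n : ℝ) : ℂ) := by rw [hn]; push_cast; rfl
    rw [this, inv_mul_cancel₀ hnc, one_smul]
  -- the rank
  have h1 := Pool.Agent.H109R2.SIC.trace_idem Q hQQ
  set m := Module.finrank ℂ (LinearMap.range (Matrix.toLin' Q)) with hm
  have hkm : k ≤ m := by
    have h2 : Submodule.span ℂ (Set.range fun j => (x (idx j)).ofLp) ≤
        LinearMap.range (Matrix.toLin' Q) := by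
      rw [Submodule.span_le]
      rintro _ ⟨j, rfl⟩
      exact ⟨(x (idx j)).ofLp, by rw [Matrix.toLin'_apply]; exact hQx j⟩
    have h3 := Submodule.finrank_mono h2
    rw [finrank_span_eq_card hli, Fintype.card_fin] at h3
    exact h3
  -- the trace
  have h2 : ((n : ℝ) : ℂ) * (m : ℂ) = ∑ h : H, trace (U h) := by
    rw [← h1]
    change ((n : ℝ) : ℂ) * trace (((n : ℝ) : ℂ)⁻¹ • ∑ h : H, U h) = _
    rw [trace_smul, smul_eq_mul, ← mul_assoc, mul_inv_cancel₀ hnc, one_mul, trace_sum]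
  have h3 : n * m = ∑ h : H, (trace (U h)).re := by
    have h4 := congrArg Complex.re h2
    rw [Complex.re_sum] at h4
    rw [← h4]
    have h5 : ((n : ℝ) : ℂ) * (m : ℂ) = ((n * m : ℝ) : ℂ) := by push_cast; rfl
    rw [h5, Complex.ofReal_re]
  have h4 : ∑ h : H, (trace (U h)).re ≤ d + (n - 1) * κ := by
    rw [← Finset.add_sum_erase _ _ (Finset.mem_univ (1 : H)), hone, trace_one, Fintype.card_fin]
    have h5 : ∑ h ∈ Finset.univ.erase (1 : H), (trace (U h)).re ≤
        ∑ h ∈ Finset.univ.erase (1 : H), κ := by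
      refine Finset.sum_le_sum fun h hh => ?_
      have hne : (h : Equiv.Perm (Fin (d ^ 2))) ≠ 1 :=
        fun h0 => (Finset.ne_of_mem_erase hh) (Subtype.ext h0)
      have h6 := trace_bound hd hx hne (hU h)
      have h7 := norm_trace_sq hd hx (hU h)
      rw [← h7, Real.sqrt_sq (norm_nonneg _)] at h6
      exact (Complex.re_le_norm _).trans h6
    rw [Finset.sum_const, Finset.card_erase_of_mem (Finset.mem_univ _), Finset.card_univ,
      nsmul_eq_mul, Nat.cast_sub Fintype.card_pos] at h5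
    simp only [Complex.natCast_re]
    rw [hn]
    push_cast at h5
    linarith
  rw [Nat.card_eq_fintype_card, ← hn]
  have h5 : n * (k : ℝ) ≤ n * m := mul_le_mul_of_nonneg_left (by exact_mod_cast hkm) hn0.le
  nlinarith

/-- independent lines -/
theorem exists_indep (hd : 1 ≤ d) (hx : IsMaxETF d x) (k : ℕ) (hk : k ≤ d) :
    ∃ idx : Fin k → Fin (d ^ 2), LinearIndependent ℂ (fun j => (x (idx j)).ofLp) := by
  classical
  have hspan : Submodule.span ℂ (Set.range fun i => (x i).ofLp) = ⊤ := by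
    rw [eq_top_iff]
    intro v _
    have h1 := congrArg (fun M => M *ᵥ v) (sum_P hx)
    simp only [Matrix.sum_mulVec, smul_mulVec, one_mulVec] at h1
    have hd0 : (d : ℂ) ≠ 0 := by exact_mod_cast (by omega : d ≠ 0)
    have h2 : v = (d : ℂ)⁻¹ • ∑ i, P x i *ᵥ v := by
      rw [h1, smul_smul, inv_mul_cancel₀ hd0, one_smul]
    rw [h2]
    refine Submodule.smul_mem _ _ (Submodule.sum_mem _ fun i _ => ?_)
    have h3 : P x i *ᵥ v = (star (x i).ofLp ⬝ᵥ v) • (x i).ofLp := by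
      ext a
      simp only [mulVec, dotProduct, P, of_apply, Pi.smul_apply, smul_eq_mul, Pi.star_apply]
      rw [Finset.sum_mul]
      exact Finset.sum_congr rfl fun b _ => by ring
    rw [h3]
    exact Submodule.smul_mem _ _ (Submodule.subset_span ⟨i, rfl⟩)
  obtain ⟨s, a, ha, h1, h2⟩ := exists_linearIndependent' ℂ (fun i => (x i).ofLp)
  rw [hspan] at h1
  have hfin : Finite s := Finite.of_injective a ha
  have : Fintype s := Fintype.ofFinite s
  have h3 : Fintype.card s = d := by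
    have h4 := finrank_span_eq_card h2
    rw [h1, finrank_top, Module.finrank_fintype_fun_eq_card, Fintype.card_fin] at h4
    exact h4.symm
  let e := Fintype.equivFinOfCardEq h3
  refine ⟨fun j => a (e.symm (Fin.castLE hk j)), ?_⟩
  exact h2.comp (fun j => e.symm (Fin.castLE hk j))
    (e.symm.injective.comp (Fin.castLE_injective hk))

theorem index_le (G : Subgroup (Equiv.Perm (Fin (d ^ 2)))) (k : ℕ)
    (idx : Fin k → Fin (d ^ 2)) :
    ∃ H : Subgroup (Equiv.Perm (Fin (d ^ 2))), H ≤ G ∧ (∀ π ∈ H, ∀ j, π (idx j) = idx j) ∧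
      Nat.card G ≤ (d ^ 2) ^ k * Nat.card H := by
  classical
  let S := MulAction.stabilizer G idx
  refine ⟨S.map G.subtype, ?_, ?_, ?_⟩
  · rintro _ ⟨g, -, rfl⟩
    exact g.2
  · rintro _ ⟨g, hg, rfl⟩ j
    exact congrFun (MulAction.mem_stabilizer_iff.1 hg) j
  · rw [Subgroup.card_map_of_injective G.subtype_injective,
      Subgroup.card_eq_card_quotient_mul_card_subgroup S]
    refine Nat.mul_le_mul_right _ ?_
    rw [← Nat.card_congr (MulAction.orbitEquivQuotientStabilizer G idx)]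
    have h1 := Nat.card_le_card_of_injective
      (Subtype.val : MulAction.orbit G idx → (Fin k → Fin (d ^ 2))) Subtype.val_injective
    refine h1.trans (le_of_eq ?_)
    simp [Nat.card_eq_fintype_card]

/-- arbitrary groups -/
theorem general (hd : 4 ≤ d) (hx : IsMaxETF d x) (G : Subgroup (Equiv.Perm (Fin (d ^ 2))))
    (hG : ∀ π ∈ G, ∃ M, Ind x M π) (k : ℕ) (hk : 2 + Real.sqrt ((d : ℝ) + 1) ≤ k) :
    Nat.card G ≤ d ^ (2 * k + 1) := by
  set κ : ℝ := 1 + Real.sqrt ((d : ℝ) + 1) with hκ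
  have hd4 : (4 : ℝ) ≤ d := by exact_mod_cast hd
  have hκd : κ < d := by
    have h1 : Real.sqrt ((d : ℝ) + 1) < d - 1 := by
      rw [Real.sqrt_lt' (by linarith)]
      nlinarith
    linarith
  have hκ0 : 0 < κ := by positivity
  have key : ∀ l : ℕ, 1 ≤ l → l ≤ d → ∃ H : Subgroup (Equiv.Perm (Fin (d ^ 2))),
      (Nat.card H : ℝ) * (l - κ) ≤ d - κ ∧ Nat.card G ≤ (d ^ 2) ^ l * Nat.card H := by
    intro l hl1 hl2
    obtain ⟨idx, hidx⟩ := exists_indep (by omega) hx l hl2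
    obtain ⟨H, hHG, hHf, hHc⟩ := index_le G l idx
    exact ⟨H, ptwise (by omega) hx H (fun π hπ => hG π (hHG hπ)) l hl1 idx hidx hHf, hHc⟩
  rcases le_or_gt k d with hkd | hkd
  · have hk1 : 1 ≤ k := by
      have h1 : (1 : ℝ) ≤ k := by
        have := Real.sqrt_nonneg ((d : ℝ) + 1)
        linarith
      exact_mod_cast h1
    obtain ⟨H, h1, h2⟩ := key k hk1 hkd
    have h3 : Nat.card H ≤ d := by
      have h4 : (Nat.card H : ℝ) * 1 ≤ Nat.card H * (k - κ) :=
        mul_le_mul_of_nonneg_left (by linarith) (by positivity)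
      have h5 : (Nat.card H : ℝ) ≤ d := by linarith
      exact_mod_cast h5
    calc Nat.card G ≤ (d ^ 2) ^ k * Nat.card H := h2
      _ ≤ (d ^ 2) ^ k * d := Nat.mul_le_mul_left _ h3
      _ = d ^ (2 * k + 1) := by rw [← pow_mul, pow_succ]
  · obtain ⟨H, h1, h2⟩ := key d (by omega) le_rfl
    have h3 : Nat.card H ≤ 1 := by
      have h4 : (Nat.card H : ℝ) ≤ 1 := by
        by_contra hcon
        push Not at hcon
        have : 0 < (Nat.card H - 1 : ℝ) * (d - κ) := mul_pos (by linarith) (by linarith)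
        nlinarith
      exact_mod_cast h4
    calc Nat.card G ≤ (d ^ 2) ^ d * Nat.card H := h2
      _ ≤ (d ^ 2) ^ d * 1 := Nat.mul_le_mul_left _ h3
      _ = d ^ (2 * d) := by rw [← pow_mul, mul_one]
      _ ≤ d ^ (2 * k + 1) := Nat.pow_le_pow_right (by omega) (by omega)

end Pool.Agent.TH446.SICG
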