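import Mathlib

set_option autoImplicit false

/-! Orders of finite nilpotent and solvable groups with bounded commutative subgroups. -/

namespace Pool.Agent.TH446.SICG

open Subgroup
open scoped commutatorElement

variable {G : Type*} [Group G]

/-- the elements of `A` commute -/
def Com (A : Subgroup G) : Prop := ∀ a ∈ A, ∀ b ∈ A, a * b = b * a

/-- A finite group is generated by at most `log₂` of its order elements. -/
theorem exists_gen [Finite G] : ∃ S : Finset G, closure (S : Set G) = ⊤ ∧
    2 ^ S.card ≤ Nat.card G := by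
  classical
  have key : ∀ n : ℕ, ∃ S : Finset G, (closure (S : Set G) = ⊤ ∨ n ≤ S.card) ∧
      2 ^ S.card ≤ Nat.card (closure (S : Set G)) := by
    intro n
    induction n with
    | zero => exact ⟨∅, Or.inr (Nat.zero_le _), by simp⟩
    | succ n ih =>
      obtain ⟨S, h1, h2⟩ := ih
      rcases h1 with h1 | h1
      · exact ⟨S, Or.inl h1, h2⟩
      by_cases h3 : closure (S : Set G) = ⊤
      · exact ⟨S, Or.inl h3, h2⟩
      obtain ⟨g, hg⟩ : ∃ g, g ∉ closure (S : Set G) := by
        by_contra hcon
        push Not at hcon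
        exact h3 (eq_top_iff.2 fun g _ => hcon g)
      have hgS : g ∉ S := fun h => hg (subset_closure h)
      refine ⟨insert g S, Or.inr ?_, ?_⟩
      · rw [Finset.card_insert_of_notMem hgS]; omega
      · rw [Finset.card_insert_of_notMem hgS, pow_succ]
        have hle : closure (S : Set G) ≤ closure ((insert g S : Finset G) : Set G) :=
          closure_mono (by simp)
        have hne : Nat.card (closure (S : Set G)) ≠
            Nat.card (closure ((insert g S : Finset G) : Set G)) := by
          intro h
          have h4 := Subgroup.eq_of_le_of_card_ge hle h.ge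
          apply hg
          rw [h4]
          exact subset_closure (by simp)
        obtain ⟨c, hc⟩ := card_dvd_of_le hle
        have hc2 : 2 ≤ c := by
          rcases c with _ | _ | c
          · exfalso
            rw [mul_zero] at hc
            exact Nat.card_pos.ne' hc
          · exfalso
            rw [zero_add, mul_one] at hc
            exact hne hc.symm
          · omega
        rw [hc]
        exact Nat.mul_le_mul h2 hc2
  obtain ⟨S, h1, h2⟩ := key (Nat.card G)
  have h3 : Nat.card (closure (S : Set G)) ≤ Nat.card G := card_le_card_group _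
  refine ⟨S, ?_, h2.trans h3⟩
  rcases h1 with h1 | h1
  · exact h1
  · exfalso
    have h4 : S.card < 2 ^ S.card := Nat.lt_two_pow_self
    omega

/-- the conjugation action on a normal subgroup -/
theorem card_le_centralizer [Finite G] (B : Subgroup G) (hB : B.Normal) :
    Nat.card G ≤ Nat.card (centralizer (B : Set G)) *
      Nat.card B ^ Nat.log 2 (Nat.card B) := by
  classical
  obtain ⟨S, h1, h2⟩ := exists_gen (G := B)
  have hS : S.card ≤ Nat.log 2 (Nat.card B) := Nat.le_log_of_pow_le (by norm_num) h2
  set C := centralizer (B : Set G) with hC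
  let φ : G ⧸ C → (S → B) := fun q s =>
    ⟨(Quotient.out q : G) * (s : B) * (Quotient.out q : G)⁻¹, hB.conj_mem _ (s : B).2 _⟩
  have hφ : Function.Injective φ := by
    intro q r h
    have h3 : ∀ s ∈ S, (Quotient.out q : G) * (s : B) * (Quotient.out q : G)⁻¹ =
        (Quotient.out r : G) * (s : B) * (Quotient.out r : G)⁻¹ := by
      intro s hs
      exact congrArg Subtype.val (congrFun h ⟨s, hs⟩)
    have h4 : (Quotient.out q : G)⁻¹ * (Quotient.out r : G) ∈ C := by
      -- the elements of `B` commuting with it form a subgroup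
      set w := (Quotient.out q : G)⁻¹ * (Quotient.out r : G) with hw
      have h5 : closure (S : Set B) ≤ (centralizer ({w} : Set G)).comap B.subtype := by
        rw [closure_le]
        intro s hs
        rw [SetLike.mem_coe, mem_comap, mem_centralizer_iff]
        intro g hg
        rw [Set.mem_singleton_iff] at hg
        subst hg
        have h6 := h3 s hs
        rw [hw]
        simp only [coe_subtype]
        calc (Quotient.out q : G)⁻¹ * (Quotient.out r : G) * (s : G)
            = (Quotient.out q : G)⁻¹ *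
              ((Quotient.out r : G) * (s : G) * (Quotient.out r : G)⁻¹) * (Quotient.out r : G) := by
                group
          _ = (s : G) * ((Quotient.out q : G)⁻¹ * (Quotient.out r : G)) := by
                rw [← h6]; group
      rw [h1] at h5
      rw [hC, mem_centralizer_iff]
      intro b hb
      have h6 := h5 (Subgroup.mem_top (⟨b, hb⟩ : B))
      rw [mem_comap, mem_centralizer_iff] at h6
      exact (h6 w rfl).symm
    have h5 : (QuotientGroup.mk (Quotient.out q) : G ⧸ C) = QuotientGroup.mk (Quotient.out r) :=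
      QuotientGroup.eq.2 h4
    rwa [QuotientGroup.out_eq', QuotientGroup.out_eq'] at h5
  have h3 := Nat.card_le_card_of_injective φ hφ
  rw [Nat.card_fun] at h3
  rw [card_eq_card_quotient_mul_card_subgroup C, mul_comm]
  refine Nat.mul_le_mul_left _ (h3.trans ?_)
  have hSc : Nat.card S = S.card := by rw [Nat.card_eq_fintype_card, Fintype.card_coe]
  rw [hSc]
  exact Nat.pow_le_pow_right Nat.card_pos hS

theorem com_closure {k : Set G} (h : ∀ a ∈ k, ∀ b ∈ k, a * b = b * a) : Com (closure k) := by
  have h1 : closure k ≤ centralizer k := by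
    rw [closure_le]
    intro a ha
    rw [SetLike.mem_coe, mem_centralizer_iff]
    intro b hb
    exact h b hb a ha
  have h2 : closure k ≤ centralizer (closure k : Set G) := by
    rw [closure_le]
    intro a ha
    rw [SetLike.mem_coe, mem_centralizer_iff]
    intro b hb
    exact ((mem_centralizer_iff.1 (h1 hb)) a ha).symm
  intro a ha b hb
  exact ((mem_centralizer_iff.1 (h2 hb)) a ha)

/-- In a finite nilpotent group some commutative normal subgroup contains its centralizer. -/
theorem nil_self [Finite G] [Group.IsNilpotent G] :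
    ∃ A : Subgroup G, A.Normal ∧ Com A ∧ centralizer (A : Set G) ≤ A := by
  classical
  obtain ⟨A, -, hA⟩ := Finite.exists_le_maximal (p := fun A : Subgroup G => A.Normal ∧ Com A)
    (a := ⊥) ⟨inferInstance, by
      intro a ha b hb
      rw [mem_bot] at ha hb
      rw [ha, hb]⟩
  obtain ⟨⟨hN, hC⟩, hmax⟩ := hA
  refine ⟨A, hN, hC, ?_⟩
  obtain ⟨n, hn⟩ := Group.IsNilpotent.nilpotent G
  -- by induction the part of the centralizer in the series is in `A`
  have key : ∀ m : ℕ, centralizer (A : Set G) ⊓ Subgroup.upperCentralSeries G m ≤ A := by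
    intro m
    induction m with
    | zero =>
      intro g hg
      have h1 : g ∈ (⊥ : Subgroup G) := hg.2
      rw [mem_bot] at h1
      rw [h1]; exact one_mem A
    | succ m ih =>
      intro g hg
      by_contra hgA
      have hg1 : g ∈ centralizer (A : Set G) := hg.1
      have hcomm : ∀ h : G, ⁅g, h⁆ ∈ A := by
        intro h
        apply ih
        constructor
        · rw [commutatorElement_def]
          have h1 : h * g⁻¹ * h⁻¹ ∈ centralizer (A : Set G) :=
            (normal_centralizer (H := A)).conj_mem _ (inv_mem hg1) h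
          have h2 := mul_mem hg1 h1
          have h3 : g * h * g⁻¹ * h⁻¹ = g * (h * g⁻¹ * h⁻¹) := by group
          rw [h3]; exact h2
        · exact Subgroup.mem_upperCentralSeries_succ_iff.1 hg.2 h
      have hk : ∀ a ∈ (A : Set G) ∪ {g}, ∀ b ∈ (A : Set G) ∪ {g}, a * b = b * a := by
        intro a ha b hb
        rcases ha with ha | ha <;> rcases hb with hb | hb
        · exact hC a ha b hb
        · rw [Set.mem_singleton_iff] at hb
          rw [hb]; exact (mem_centralizer_iff.1 hg1) a ha
        · rw [Set.mem_singleton_iff] at ha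
          rw [ha]; exact ((mem_centralizer_iff.1 hg1) b hb).symm
        · rw [Set.mem_singleton_iff] at ha hb
          rw [ha, hb]
      have hcl := com_closure hk
      set B := closure ((A : Set G) ∪ {g}) with hB
      have hAB : A ≤ B := fun a ha => subset_closure (Or.inl ha)
      have hgB : g ∈ B := subset_closure (Or.inr rfl)
      have hBn : B.Normal := by
        refine ⟨fun b hb h => ?_⟩
        refine closure_induction (p := fun b _ => h * b * h⁻¹ ∈ B) ?_ ?_ ?_ ?_ hb
        · rintro b (hb | hb)
          · exact hAB (hN.conj_mem b hb h)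
          · rw [Set.mem_singleton_iff] at hb
            rw [hb]
            have h1 : h * g * h⁻¹ = (⁅g, h⁆)⁻¹ * g := by
              rw [commutatorElement_def]; group
            rw [h1]
            exact mul_mem (inv_mem (hAB (hcomm h))) hgB
        · simp
        · intro a b _ _ ha hb
          have h1 : h * (a * b) * h⁻¹ = (h * a * h⁻¹) * (h * b * h⁻¹) := by group
          rw [h1]; exact mul_mem ha hb
        · intro a _ ha
          have h1 : h * a⁻¹ * h⁻¹ = (h * a * h⁻¹)⁻¹ := by group
          rw [h1]; exact inv_mem ha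
      exact hgA (hmax ⟨hBn, hcl⟩ hAB hgB)
  intro g hg
  apply key n
  rw [hn]
  exact ⟨hg, mem_top g⟩

theorem nil_bound [Finite G] [Group.IsNilpotent G] (β : ℕ)
    (h : ∀ A : Subgroup G, Com A → Nat.card A ≤ β) :
    Nat.card G ≤ β ^ (Nat.log 2 β + 1) := by
  obtain ⟨A, h1, h2, h3⟩ := nil_self (G := G)
  have h4 := card_le_centralizer A h1
  have h5 : Nat.card (centralizer (A : Set G)) ≤ Nat.card A :=
    Nat.card_le_card_of_injective _ (inclusion_injective h3)
  have h6 := h A h2
  have hβ : 0 < β := lt_of_lt_of_le Nat.card_pos h6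
  calc Nat.card G ≤ Nat.card A * Nat.card A ^ Nat.log 2 (Nat.card A) :=
        h4.trans (Nat.mul_le_mul_right _ h5)
    _ ≤ β * β ^ Nat.log 2 β := Nat.mul_le_mul h6
        ((Nat.pow_le_pow_left h6 _).trans
          (Nat.pow_le_pow_right hβ (Nat.log_mono_right h6)))
    _ = β ^ (Nat.log 2 β + 1) := by rw [pow_succ, mul_comm]

/-- In a finite solvable group there is a normal subgroup `B` of class at most two which
contains its centralizer, this being commutative. -/
theorem solv_self [Finite G] (hs : Group.IsSolvable G) :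
    ∃ A B : Subgroup G, A.Normal ∧ Com A ∧ B.Normal ∧ A ≤ B ∧ B ≤ centralizer (A : Set G) ∧
      (∀ a ∈ B, ∀ b ∈ B, ⁅a, b⁆ ∈ A) ∧ centralizer (B : Set G) ≤ A := by
  classical
  obtain ⟨A, -, hA⟩ := Finite.exists_le_maximal (p := fun A : Subgroup G => A.Normal ∧ Com A)
    (a := ⊥) ⟨inferInstance, by
      intro a ha b hb
      rw [mem_bot] at ha hb
      rw [ha, hb]⟩
  obtain ⟨⟨hN, hC⟩, hmax⟩ := hA
  obtain ⟨B, -, hB⟩ := Finite.exists_le_maximal (p := fun B : Subgroup G => B.Normal ∧ A ≤ B ∧
      B ≤ centralizer (A : Set G) ∧ ∀ a ∈ B, ∀ b ∈ B, ⁅a, b⁆ ∈ A)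
    (a := A) ⟨hN, le_rfl, by
      intro a ha
      rw [mem_centralizer_iff]
      intro b hb
      exact hC b hb a ha, by
      intro a ha b hb
      rw [commutatorElement_def, hC a ha b hb]
      simp⟩
  obtain ⟨⟨hBN, hAB, hBC, hBB⟩, hBmax⟩ := hB
  refine ⟨A, B, hN, hC, hBN, hAB, hBC, hBB, ?_⟩
  set D := centralizer (B : Set G) with hD
  have hDN : D.Normal := normal_centralizer
  have hAD : A ≤ D := by
    intro a ha
    rw [hD, mem_centralizer_iff]
    intro b hb
    exact ((mem_centralizer_iff.1 (hBC hb)) a ha).symm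
  -- `D ⊓ B = A`
  have hDB : D ⊓ B ≤ A := by
    refine hmax ⟨inferInstance, ?_⟩ (le_inf hAD hAB)
    intro a ha b hb
    exact (mem_centralizer_iff.1 hb.1) a ha.2
  -- the series
  let K : ℕ → Subgroup G := fun n => Nat.rec D (fun _ H => ⁅H, H⁆) n
  have hK0 : K 0 = D := rfl
  have hKs : ∀ n, K (n + 1) = ⁅K n, K n⁆ := fun n => rfl
  have hKN : ∀ n, (K n).Normal := by
    intro n
    induction n with
    | zero => exact hDN
    | succ n ih =>
      rw [hKs]
      exact @Subgroup.commutator_normal G _ (K n) (K n) ih ih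
  have hKD : ∀ n, K n ≤ D := by
    intro n
    induction n with
    | zero => exact le_rfl
    | succ n ih =>
      rw [hKs, commutator_le]
      intro a ha b hb
      rw [commutatorElement_def]
      exact mul_mem (mul_mem (mul_mem (ih ha) (ih hb)) (inv_mem (ih ha))) (inv_mem (ih hb))
  have hKd : ∀ n, K n ≤ derivedSeries G n := by
    intro n
    induction n with
    | zero => exact le_top
    | succ n ih => rw [hKs, derivedSeries_succ]; exact commutator_mono ih ih
  obtain ⟨n, hn⟩ := hs.solvable
  have hKn : K n ≤ B := by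
    refine (hKd n).trans ?_
    rw [hn]; exact bot_le
  -- descend
  have key : ∀ j, K (j + 1) ≤ B → K j ≤ B := by
    intro j hj
    have hE : (K j ⊔ B) ≤ B := by
      have := hKN j
      have hEN : (K j ⊔ B).Normal := @Subgroup.sup_normal G _ (K j) B (hKN j) hBN
      refine hBmax ⟨hEN, hAB.trans le_sup_right, ?_, ?_⟩ le_sup_right
      · refine sup_le ((hKD j).trans ?_) hBC
        intro a ha
        rw [mem_centralizer_iff]
        intro b hb
        exact (mem_centralizer_iff.1 ha) b (hAB hb)
      · intro u hu v hv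
        have h1 : ∀ w ∈ K j ⊔ B, ∃ k ∈ K j, ∃ b ∈ B, k * b = w := by
          intro w hw
          rw [← SetLike.mem_coe, mul_normal] at hw
          obtain ⟨k, hk, b, hb, e⟩ := Set.mem_mul.1 hw
          exact ⟨k, hk, b, hb, e⟩
        obtain ⟨k, hk, b, hb, rfl⟩ := h1 u hu
        obtain ⟨k', hk', b', hb', rfl⟩ := h1 v hv
        have c1 : ∀ z ∈ K j, ∀ y ∈ B, y * z = z * y := fun z hz y hy =>
          (mem_centralizer_iff.1 (hKD j hz)) y hy
        have e1 : ⁅k * b, k' * b'⁆ = ⁅k, k'⁆ * ⁅b, b'⁆ := by
          rw [commutatorElement_def, commutatorElement_def, commutatorElement_def, mul_inv_rev,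
            mul_inv_rev]
          have i1 := c1 k' hk' b hb
          have i2 := c1 k⁻¹ (inv_mem hk) (b * b' * b⁻¹)
            (mul_mem (mul_mem hb hb') (inv_mem hb))
          have i3 := c1 k'⁻¹ (inv_mem hk') (b * b' * b⁻¹ * b'⁻¹)
            (mul_mem (mul_mem (mul_mem hb hb') (inv_mem hb)) (inv_mem hb'))
          have i4 := c1 k⁻¹ (inv_mem hk) b'⁻¹ (inv_mem hb')
          calc k * b * (k' * b') * (b⁻¹ * k⁻¹) * (b'⁻¹ * k'⁻¹)
              = k * (b * k') * b' * b⁻¹ * k⁻¹ * b'⁻¹ * k'⁻¹ := by group
            _ = k * (k' * b) * b' * b⁻¹ * k⁻¹ * b'⁻¹ * k'⁻¹ := by rw [i1]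
            _ = k * k' * (b * b' * b⁻¹ * k⁻¹) * b'⁻¹ * k'⁻¹ := by group
            _ = k * k' * (k⁻¹ * (b * b' * b⁻¹)) * b'⁻¹ * k'⁻¹ := by rw [i2]
            _ = k * k' * k⁻¹ * ((b * b' * b⁻¹ * b'⁻¹) * k'⁻¹) := by group
            _ = k * k' * k⁻¹ * (k'⁻¹ * (b * b' * b⁻¹ * b'⁻¹)) := by rw [i3]
            _ = k * k' * k⁻¹ * k'⁻¹ * (b * b' * b⁻¹ * b'⁻¹) := by group
        rw [e1]
        refine mul_mem (hDB (Subgroup.mem_inf.2 ⟨?_, ?_⟩)) (hBB b hb b' hb')
        · rw [commutatorElement_def]
          exact mul_mem (mul_mem (mul_mem (hKD j hk) (hKD j hk')) (inv_mem (hKD j hk)))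
            (inv_mem (hKD j hk'))
        · apply hj
          rw [hKs]
          exact commutator_mem_commutator hk hk'
    exact le_sup_left.trans hE
  have hfin : ∀ j, j ≤ n → K (n - j) ≤ B := by
    intro j
    induction j with
    | zero => intro _; simpa using hKn
    | succ j ih =>
      intro hj
      apply key
      have h1 : n - (j + 1) + 1 = n - j := by omega
      rw [h1]
      exact ih (by omega)
  have h0 : D ≤ B := by
    have := hfin n le_rfl
    rwa [Nat.sub_self, hK0] at this
  exact fun g hg => hDB ⟨hg, h0 hg⟩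

theorem solv_bound [Finite G] (hs : Group.IsSolvable G) (β : ℕ)
    (h : ∀ A : Subgroup G, Com A → Nat.card A ≤ β) :
    Nat.card G ≤ β ^ ((Nat.log 2 β + 1) ^ 3 + 1) := by
  obtain ⟨A, B, hN, hC, hBN, hAB, hBC, hBB, hBA⟩ := solv_self hs
  have hAβ := h A hC
  have hβ : 0 < β := lt_of_lt_of_le Nat.card_pos hAβ
  set L := Nat.log 2 β with hL
  -- `B` is nilpotent
  have hcen : ∀ a ∈ A, ∀ b ∈ B, b * a = a * b := fun a ha b hb =>
    ((mem_centralizer_iff.1 (hBC hb)) a ha).symm
  have hnil : Group.IsNilpotent B := by
    refine ⟨⟨2, ?_⟩⟩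
    rw [eq_top_iff]
    intro x _
    rw [Subgroup.mem_upperCentralSeries_succ_iff]
    intro y
    rw [Subgroup.upperCentralSeries_one, mem_center_iff]
    intro z
    apply Subtype.ext
    have h1 : ((⁅x, y⁆ : B) : G) ∈ A := by
      have := hBB x x.2 y y.2
      simpa [commutatorElement_def] using this
    exact hcen _ h1 z z.2
  have hBβ : Nat.card B ≤ β ^ (L + 1) := by
    apply nil_bound (G := B)
    intro M hM
    have h1 : Com (M.map B.subtype) := by
      rintro _ ⟨a, ha, rfl⟩ _ ⟨b, hb, rfl⟩
      rw [← map_mul, hM a ha b hb, map_mul]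
    have h2 := h _ h1
    rwa [Subgroup.card_map_of_injective B.subtype_injective] at h2
  have h4 := card_le_centralizer B hBN
  have h5 : Nat.card (centralizer (B : Set G)) ≤ Nat.card A :=
    Nat.card_le_card_of_injective _ (inclusion_injective hBA)
  have h6 : Nat.log 2 (Nat.card B) ≤ (L + 1) ^ 2 := by
    have h7 : Nat.card B < 2 ^ ((L + 1) ^ 2) := by
      refine lt_of_le_of_lt hBβ ?_
      rw [sq, pow_mul]
      exact Nat.pow_lt_pow_left (Nat.lt_pow_succ_log_self (by norm_num) β) (by omega)
    exact (Nat.log_lt_of_lt_pow Nat.card_pos.ne' h7).le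
  have hpos : 0 < β ^ (L + 1) := by positivity
  calc Nat.card G ≤ β * (β ^ (L + 1)) ^ ((L + 1) ^ 2) := by
        refine h4.trans (Nat.mul_le_mul (h5.trans hAβ) ?_)
        exact (Nat.pow_le_pow_left hBβ _).trans (Nat.pow_le_pow_right hpos h6)
    _ = β ^ ((L + 1) ^ 3 + 1) := by
        rw [← pow_mul, ← pow_succ', pow_succ (L + 1) 2, mul_comm (L + 1)]

end Pool.Agent.TH446.SICG
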